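import Pool.Agent.Helper65.Roy.Proof

set_option autoImplicit false

open Set TopologicalSpace Pool.Agent.Helper65.Roy

namespace Pool.Agent.Results.MP_b6d12e_lc.RoySubmetrizable

/-- For every represented submetrizable space (a second-countable T0 space `X` with an
enumeration `β` of a countable base, whose topology contains a coarser metrizable one) there is
a Roy halfgraph-above `e`-degree which is not the degree of a point of `X`. -/
theorem result {X : Type*} [TopologicalSpace X] [T0Space X] (β : ℕ → Set X)
    (hβ : IsTopologicalBasis (range β)) (hX : Submetrizable X) :
    ∃ d : Set (Set ℕ), RoyHalfgraphAbove d ∧ ¬ IsPointDegree β d :=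
  exists_roy_not_point β hβ hX

end Pool.Agent.Results.MP_b6d12e_lc.RoySubmetrizable
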